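import Pool.Agent.Q71.UC.Wirt

set_option autoImplicit false
open MeasureTheory Set Filter Topology Metric Complex
open scoped Convolution ContDiff ENNReal

namespace Q71.TD

open Q71.UC (dbar1 locInt_inv)

/-- the Cauchy transform, a right inverse of `∂̄` -/
noncomputable def Ct (s : ℂ → ℂ) (z : ℂ) : ℂ := (Real.pi : ℂ)⁻¹ * ∫ t : ℂ, t⁻¹ * s (z - t)

lemma Ct_eq (s : ℂ → ℂ) : Ct s = fun z => (Real.pi : ℂ)⁻¹ *
    ((fun t : ℂ => t⁻¹) ⋆[ContinuousLinearMap.mul ℝ ℂ, volume] s) z := rfl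

lemma Ct_contDiff {s : ℂ → ℂ} (hs : ContDiff ℝ ∞ s) (hc : HasCompactSupport s) :
    ContDiff ℝ ∞ (Ct s) := by
  rw [Ct_eq]
  exact contDiff_const.mul (hc.contDiff_convolution_right _ locInt_inv hs)

lemma Ct_fderiv {s : ℂ → ℂ} (hs : ContDiff ℝ 1 s) (hc : HasCompactSupport s) (z v : ℂ) :
    fderiv ℝ (Ct s) z v = Ct (fun w => fderiv ℝ s w v) z := by
  have hd : HasFDerivAt ((fun t : ℂ => t⁻¹) ⋆[ContinuousLinearMap.mul ℝ ℂ, volume] s)
      (((fun t : ℂ => t⁻¹) ⋆[(ContinuousLinearMap.mul ℝ ℂ).precompR ℂ, volume]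
        fderiv ℝ s) z) z := hc.hasFDerivAt_convolution_right _ locInt_inv hs z
  have hd2 := hd.const_mul (Real.pi : ℂ)⁻¹
  have hcf : Continuous (fderiv ℝ s) := hs.continuous_fderiv one_ne_zero
  have hint : Integrable (fun t : ℂ => ((ContinuousLinearMap.mul ℝ ℂ).precompR ℂ (t⁻¹))
      (fderiv ℝ s (z - t))) :=
    (hc.fderiv ℝ).convolutionExists_right _ locInt_inv hcf z
  have hev : ∀ v : ℂ, (((fun t : ℂ => t⁻¹) ⋆[(ContinuousLinearMap.mul ℝ ℂ).precompR ℂ, volume]
      fderiv ℝ s) z) v = ∫ t : ℂ, t⁻¹ * (fderiv ℝ s (z - t)) v := by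
    intro v
    unfold convolution
    rw [ContinuousLinearMap.integral_apply hint]
    rfl
  rw [Ct_eq, hd2.fderiv]
  simp only [smul_apply, smul_eq_mul]
  rw [hev]
  rfl

lemma Ct_dbar {s : ℂ → ℂ} (hs : ContDiff ℝ 1 s) (hc : HasCompactSupport s) (z : ℂ) :
    dbar1 (Ct s) z = s z := by
  have hcf : Continuous (fderiv ℝ s) := hs.continuous_fderiv one_ne_zero
  have hint : Integrable (fun t : ℂ => ((ContinuousLinearMap.mul ℝ ℂ).precompR ℂ (t⁻¹))
      (fderiv ℝ s (z - t))) :=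
    (hc.fderiv ℝ).convolutionExists_right _ locInt_inv hcf z
  have hiv : ∀ v : ℂ, Integrable (fun t : ℂ => t⁻¹ * (fderiv ℝ s (z - t)) v) := by
    intro v
    exact (ContinuousLinearMap.apply ℝ ℂ v).integrable_comp hint
  unfold dbar1
  rw [Ct_fderiv hs hc, Ct_fderiv hs hc]
  unfold Ct
  have h1 := Pool.Agent.Helper366.IV.cauchy_pompeiu s hs hc z
  have h2 : ∫ w, (fderiv ℝ s (z - w) 1 + I * fderiv ℝ s (z - w) I) / 2 / w =
      (1 / 2 : ℂ) * ((∫ t : ℂ, t⁻¹ * (fderiv ℝ s (z - t)) 1) +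
        I * ∫ t : ℂ, t⁻¹ * (fderiv ℝ s (z - t)) I) := by
    rw [← integral_const_mul I, ← integral_add (hiv 1) ((hiv I).const_mul I),
      ← integral_const_mul]
    apply integral_congr_ae
    filter_upwards with w
    ring
  rw [h2] at h1
  have hpi : (Real.pi : ℂ) ≠ 0 := by exact_mod_cast Real.pi_ne_zero
  field_simp
  field_simp at h1
  linear_combination h1

lemma kernel_ball {r : ℝ} (hr : 0 < r) :
    ∫⁻ t in ball (0 : ℂ) r, ‖t⁻¹‖ₑ = ENNReal.ofReal (2 * Real.pi * r) := by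
  set f : ℝ → ℝ := (Iio r).indicator (fun y => y⁻¹) with hf
  have h0 : IntegrableOn (fun y : ℝ => y ^ (Module.finrank ℝ ℂ - 1) • f y) (Ioi 0) := by
    have : IntegrableOn ((Ioo (0:ℝ) r).indicator (fun _ => (1 : ℝ))) (Ioi 0) := by
      apply Integrable.integrableOn
      rw [integrable_indicator_iff measurableSet_Ioo]
      simp
    refine this.congr_fun ?_ measurableSet_Ioi
    intro y hy
    have hy0 : (0 : ℝ) < y := hy
    simp only [hf, Complex.finrank_real_complex, indicator, mem_Ioo, mem_Iio, smul_eq_mul]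
    by_cases h : y < r
    · simp [h, hy0, hy0.ne']
    · simp [h]
  have h1 := (integrable_fun_norm_addHaar (volume : Measure ℂ) (f := f)).mpr h0
  have h2 := integral_fun_norm_addHaar (volume : Measure ℂ) f
  have h3 : ∫ y in Ioi (0 : ℝ), y ^ (Module.finrank ℝ ℂ - 1) • f y = r := by
    have : ∫ y in Ioi (0 : ℝ), y ^ (Module.finrank ℝ ℂ - 1) • f y =
        ∫ y in Ioi (0 : ℝ), (Ioo (0:ℝ) r).indicator (fun _ => (1 : ℝ)) y := by
      apply setIntegral_congr_fun measurableSet_Ioi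
      intro y hy
      have hy0 : (0 : ℝ) < y := hy
      simp only [hf, Complex.finrank_real_complex, indicator, mem_Ioo, mem_Iio, smul_eq_mul]
      by_cases h : y < r
      · simp [h, hy0, hy0.ne']
      · simp [h]
    rw [this, setIntegral_indicator measurableSet_Ioo]
    have : Ioi (0:ℝ) ∩ Ioo 0 r = Ioo 0 r := by
      ext y; simp only [mem_inter_iff, mem_Ioi, mem_Ioo]; tauto
    rw [this]
    simp [hr.le]
  rw [h3] at h2
  have h4 : volume.real (ball (0 : ℂ) 1) = Real.pi := by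
    rw [Measure.real, Complex.volume_ball]
    simp [NNReal.coe_real_pi]
  rw [h4] at h2
  have h5 : ∫⁻ t in ball (0 : ℂ) r, ‖t⁻¹‖ₑ = ∫⁻ t : ℂ, ENNReal.ofReal (f ‖t‖) := by
    rw [← lintegral_indicator measurableSet_ball]
    apply lintegral_congr
    intro t
    simp only [hf, indicator, mem_ball_zero_iff, mem_Iio]
    by_cases h : ‖t‖ < r
    · simp only [h, if_true]
      rw [← ofReal_norm, norm_inv]
    · simp [h]
  rw [h5, ← ofReal_integral_eq_lintegral_ofReal h1, h2]
  · congr 1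
    simp [Complex.finrank_real_complex]
    ring
  · apply Eventually.of_forall
    intro t
    simp only [hf, indicator, mem_Iio]
    split_ifs
    · simp
    · simp

lemma kernel_set {S : Set ℂ} (hS : MeasurableSet S) {A r : ℝ} (hA : 0 ≤ A) (hr : 0 < r)
    (hvol : volume S ≤ ENNReal.ofReal A) (z : ℂ) :
    ∫⁻ t in {t | z - t ∈ S}, ‖t⁻¹‖ₑ ≤ ENNReal.ofReal (2 * Real.pi * r + A / r) := by
  set S' : Set ℂ := {t | z - t ∈ S} with hS'
  have hm : MeasurableSet S' := hS.preimage (by fun_prop)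
  have hv : volume S' = volume S := by
    have h := (Measure.measurePreserving_sub_left (volume : Measure ℂ) z).measure_preimage
      hS.nullMeasurableSet
    exact h
  have hsub : S' ⊆ ball (0 : ℂ) r ∪ (S' \ ball (0 : ℂ) r) := by
    intro t ht
    by_cases h : t ∈ ball (0 : ℂ) r
    · exact Or.inl h
    · exact Or.inr ⟨ht, h⟩
  calc ∫⁻ t in S', ‖t⁻¹‖ₑ ≤ ∫⁻ t in ball (0 : ℂ) r ∪ (S' \ ball (0 : ℂ) r), ‖t⁻¹‖ₑ :=
        lintegral_mono_set hsub
    _ ≤ (∫⁻ t in ball (0 : ℂ) r, ‖t⁻¹‖ₑ) + ∫⁻ t in S' \ ball (0 : ℂ) r, ‖t⁻¹‖ₑ :=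
        lintegral_union_le _ _ _
    _ ≤ ENNReal.ofReal (2 * Real.pi * r) + ENNReal.ofReal (A / r) := by
        apply add_le_add (kernel_ball hr).le
        calc ∫⁻ t in S' \ ball (0 : ℂ) r, ‖t⁻¹‖ₑ
            ≤ ∫⁻ t in S' \ ball (0 : ℂ) r, ENNReal.ofReal r⁻¹ := by
              apply setLIntegral_mono' (hm.diff measurableSet_ball)
              intro t ht
              have h1 : r ≤ ‖t‖ := by
                by_contra h
                exact ht.2 (by rw [mem_ball_zero_iff]; linarith)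
              rw [← ofReal_norm, norm_inv]
              apply ENNReal.ofReal_le_ofReal
              exact inv_anti₀ hr h1
          _ = ENNReal.ofReal r⁻¹ * volume (S' \ ball (0 : ℂ) r) := by
              rw [setLIntegral_const]
          _ ≤ ENNReal.ofReal r⁻¹ * ENNReal.ofReal A := by
              gcongr
              exact (measure_mono sdiff_subset).trans (hv.le.trans hvol)
          _ = ENNReal.ofReal (A / r) := by
              rw [← ENNReal.ofReal_mul (by positivity)]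
              congr 1
              field_simp
    _ = ENNReal.ofReal (2 * Real.pi * r + A / r) := by
        rw [ENNReal.ofReal_add (by positivity) (by positivity)]

lemma Ct_le {s : ℂ → ℂ} {S B : Set ℂ} (hS : MeasurableSet S) (hB : MeasurableSet B)
    {M N A A' r : ℝ} (hM : 0 ≤ M) (hN : 0 ≤ N) (hA : 0 ≤ A) (hA' : 0 ≤ A') (hr : 0 < r)
    (hs : ∀ w, ‖s w‖ ≤ M * S.indicator (fun _ => (1 : ℝ)) w + N * B.indicator (fun _ => (1 : ℝ)) w)
    (hvS : volume S ≤ ENNReal.ofReal A) (hvB : volume B ≤ ENNReal.ofReal A') (z : ℂ) :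
    ‖Ct s z‖ ≤ M * (2 * r + A / r) + N * (2 + A') := by
  have h1 : ‖∫ t : ℂ, t⁻¹ * s (z - t)‖ₑ ≤
      ENNReal.ofReal (M * (2 * Real.pi * r + A / r) + N * (2 * Real.pi * 1 + A' / 1)) := by
    calc ‖∫ t : ℂ, t⁻¹ * s (z - t)‖ₑ ≤ ∫⁻ t : ℂ, ‖t⁻¹ * s (z - t)‖ₑ :=
          enorm_integral_le_lintegral_enorm _
      _ ≤ ∫⁻ t : ℂ, (ENNReal.ofReal M * ({t | z - t ∈ S}.indicator (fun t => ‖t⁻¹‖ₑ) t) +
          ENNReal.ofReal N * ({t | z - t ∈ B}.indicator (fun t => ‖t⁻¹‖ₑ) t)) := by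
          apply lintegral_mono
          intro t
          simp only
          rw [enorm_mul]
          have h2 : ‖s (z - t)‖ₑ ≤ ENNReal.ofReal M * ({t | z - t ∈ S}.indicator (fun t => 1) t) +
              ENNReal.ofReal N * ({t | z - t ∈ B}.indicator (fun t => 1) t) := by
            rw [← ofReal_norm]
            refine (ENNReal.ofReal_le_ofReal (hs (z - t))).trans ?_
            by_cases h1 : z - t ∈ S <;> by_cases h2 : z - t ∈ B <;>
              simp [indicator, h1, h2, ENNReal.ofReal_add hM hN]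
          refine (mul_le_mul_right h2 _).trans ?_
          by_cases h1 : z - t ∈ S <;> by_cases h2 : z - t ∈ B <;>
            simp [indicator, h1, h2, mul_comm, mul_add, (add_mul (ENNReal.ofReal M) (ENNReal.ofReal N) ‖t⁻¹‖ₑ).le]
      _ = ENNReal.ofReal M * (∫⁻ t in {t | z - t ∈ S}, ‖t⁻¹‖ₑ) +
          ENNReal.ofReal N * (∫⁻ t in {t | z - t ∈ B}, ‖t⁻¹‖ₑ) := by
          have hmS : MeasurableSet {t : ℂ | z - t ∈ S} := hS.preimage (by fun_prop)
          have hmB : MeasurableSet {t : ℂ | z - t ∈ B} := hB.preimage (by fun_prop)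
          rw [lintegral_add_left, lintegral_const_mul, lintegral_const_mul,
            lintegral_indicator hmS, lintegral_indicator hmB]
          · exact (by fun_prop : Measurable (fun t : ℂ => ‖t⁻¹‖ₑ)).indicator hmB
          · exact (by fun_prop : Measurable (fun t : ℂ => ‖t⁻¹‖ₑ)).indicator hmS
          · exact ((by fun_prop : Measurable (fun t : ℂ => ‖t⁻¹‖ₑ)).indicator hmS).const_mul _
      _ ≤ ENNReal.ofReal M * ENNReal.ofReal (2 * Real.pi * r + A / r) +
          ENNReal.ofReal N * ENNReal.ofReal (2 * Real.pi * 1 + A' / 1) := by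
          gcongr
          · exact kernel_set hS hA hr hvS z
          · exact kernel_set hB hA' one_pos hvB z
      _ = _ := by
          rw [ENNReal.ofReal_add (p := M * (2 * Real.pi * r + A / r)) (by positivity)
            (by positivity), ENNReal.ofReal_mul hM, ENNReal.ofReal_mul hN]
  have h2 : ‖∫ t : ℂ, t⁻¹ * s (z - t)‖ ≤
      M * (2 * Real.pi * r + A / r) + N * (2 * Real.pi * 1 + A' / 1) := by
    rw [← ofReal_norm] at h1
    exact (ENNReal.ofReal_le_ofReal_iff (by positivity)).mp h1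
  unfold Ct
  rw [norm_mul, norm_inv, Complex.norm_real, Real.norm_of_nonneg Real.pi_pos.le,
    inv_mul_le_iff₀ Real.pi_pos]
  refine h2.trans ?_
  have hpi : 1 ≤ Real.pi := by linarith [Real.pi_gt_three]
  have e1 : M * (2 * Real.pi * r + A / r) ≤ M * (Real.pi * (2 * r + A / r)) := by
    gcongr
    have : A / r ≤ Real.pi * (A / r) := le_mul_of_one_le_left (by positivity) hpi
    nlinarith
  have e2 : N * (2 * Real.pi * 1 + A' / 1) ≤ N * (Real.pi * (2 + A')) := by
    gcongr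
    have : A' ≤ Real.pi * A' := le_mul_of_one_le_left (by positivity) hpi
    rw [div_one]
    nlinarith
  nlinarith

end Q71.TD
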