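import Pool.Agent.Q71.TD.Seq

set_option autoImplicit false
open MeasureTheory Set Filter Topology Metric Complex
open scoped ContDiff ENNReal

namespace Q71.TD

open Q71.UC (dbar1 dbar1_mul)

lemma differentiableAt_of_dbar {u : ℂ → ℂ} {z : ℂ} (h : DifferentiableAt ℝ u z)
    (h0 : dbar1 u z = 0) : DifferentiableAt ℂ u z := by
  rw [differentiableAt_complex_iff_differentiableAt_real]
  refine ⟨h, ?_⟩
  unfold dbar1 at h0
  have h1 : fderiv ℝ u z 1 + I * fderiv ℝ u z I = 0 := by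
    rcases mul_eq_zero.mp h0 with h | h
    · norm_num at h
    · exact h
  rw [smul_eq_mul]
  linear_combination (-I) * h1 + (fderiv ℝ u z I) * I_mul_I

theorem exists_u : ∃ (u : ℂ → ℂ) (L : ℝ), 0 ≤ L ∧ (∀ z w, ‖u z - u w‖ ≤ L * ‖z - w‖) ∧
    (∃ B, ∀ z, ‖u z‖ ≤ B) ∧ (∃ z w, u z ≠ u w) ∧
    (∀ (b : Bool) (q : ℚ) (z : ℂ), dir b z = q → AnalyticAt ℂ u z) := by
  obtain ⟨e, he⟩ := exists_surjective_nat (Bool × ℚ)
  obtain ⟨B0, hB0, hB0'⟩ := p0_bound
  obtain ⟨B1, hB1, hB1'⟩ := p0_deriv_bound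
  obtain ⟨z0, w0, hzw⟩ := p0_nonconst
  set C : ℝ := ‖p0.2 z0 - p0.2 w0‖ / 3 with hC
  have hC0 : 0 < C := by
    have : 0 < ‖p0.2 z0 - p0.2 w0‖ := norm_pos_iff.mpr (sub_ne_zero.mpr hzw)
    positivity
  have hnext : ∀ (n : ℕ) (p : {p // Good p}), ∃ p' : {p // Good p},
      Rel (e n).1 ((e n).2 : ℝ) (C / 2 / 2 ^ n) p.1 p'.1 := by
    intro n p
    obtain ⟨p', h1, h2⟩ := exists_next (e n).1 ((e n).2 : ℝ) (ε := C / 2 / 2 ^ n) (by positivity)
      p.2
    exact ⟨⟨p', h1⟩, h2⟩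
  choose nx hnx using hnext
  let P : ℕ → {p // Good p} := fun n => Nat.rec ⟨p0, good_p0⟩ (fun n p => nx n p) n
  have hP : ∀ n, Rel (e n).1 ((e n).2 : ℝ) (C / 2 / 2 ^ n) (P n).1 (P (n + 1)).1 := fun n =>
    hnx n (P n)
  set g : ℕ → ℂ → ℝ := fun n => (P n).1.1 with hg
  set U : ℕ → ℂ → ℂ := fun n => (P n).1.2 with hU
  have hU0 : U 0 = p0.2 := rfl
  have hg0 : g 0 = p0.1 := rfl
  have hgnn : ∀ n z, 0 ≤ g n z := fun n z => (P n).2.2.1 z
  have hUs : ∀ n, ContDiff ℝ ∞ (U n) := fun n => (P n).2.2.2.2.1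
  have hUd : ∀ n z, dbar1 (U n) z = (g n z : ℂ) := fun n z => (P n).2.2.2.2.2 z
  have hgle : ∀ n z, g (n + 1) z ≤ g n z := fun n z => (hP n).1 z
  have hanti : ∀ z, Antitone (fun n => g n z) := fun z => antitone_nat_of_succ_le fun n => hgle n z
  have hdist : ∀ n z, ‖U (n + 1) z - U n z‖ ≤ C / 2 / 2 ^ n := fun n z => (hP n).2.1 z
  have hder : ∀ n z, ‖fderiv ℝ (U (n + 1)) z - fderiv ℝ (U n) z‖ ≤
      2 * (g n z - g (n + 1) z) + C / 2 / 2 ^ n := fun n z => (hP n).2.2.1 z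
  -- derivative bound
  have hDb : ∀ n z, ‖fderiv ℝ (U n) z‖ ≤ B1 + 2 * (g 0 z - g n z) + C * (1 - 1 / 2 ^ n) := by
    intro n z
    induction n with
    | zero => simpa [hU0] using hB1' z
    | succ n ih =>
      have h1 : ‖fderiv ℝ (U (n + 1)) z‖ ≤ ‖fderiv ℝ (U (n + 1)) z - fderiv ℝ (U n) z‖ +
          ‖fderiv ℝ (U n) z‖ := by
        calc ‖fderiv ℝ (U (n + 1)) z‖ = ‖(fderiv ℝ (U (n + 1)) z - fderiv ℝ (U n) z) +
            fderiv ℝ (U n) z‖ := by rw [sub_add_cancel]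
          _ ≤ _ := norm_add_le _ _
      have h2 := hder n z
      have h3 : C / 2 / 2 ^ n + C * (1 - 1 / 2 ^ n) = C * (1 - 1 / 2 ^ (n + 1)) := by
        rw [pow_succ]
        field_simp
        ring
      linarith
  set L : ℝ := B1 + 2 + C with hL
  have hL0 : 0 ≤ L := by positivity
  have hDL : ∀ n z, ‖fderiv ℝ (U n) z‖ ≤ L := by
    intro n z
    refine (hDb n z).trans ?_
    have h1 : g 0 z ≤ 1 := g0.le_one
    have h2 := hgnn n z
    have h3 : C * (1 - 1 / 2 ^ n) ≤ C * 1 := by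
      apply mul_le_mul_of_nonneg_left _ hC0.le
      have : (0 : ℝ) ≤ 1 / 2 ^ n := by positivity
      linarith
    linarith
  have hlip : ∀ n z w, ‖U n z - U n w‖ ≤ L * ‖z - w‖ := by
    intro n z w
    exact (convex_univ (𝕜 := ℝ)).norm_image_sub_le_of_norm_fderiv_le (𝕜 := ℝ)
      (fun x _ => (hUs n).differentiable (by simp) x) (fun x _ => hDL n x) (mem_univ w) (mem_univ z)
  -- the limit
  have hdist' : ∀ z n, dist (U n z) (U (n + 1) z) ≤ C / 2 / 2 ^ n := by
    intro z n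
    rw [dist_comm, dist_eq_norm]
    exact hdist n z
  have hcau : ∀ z, CauchySeq (fun n => U n z) := fun z =>
    cauchySeq_of_le_geometric_two (hdist' z)
  choose u hu using fun z => cauchySeq_tendsto_of_complete (hcau z)
  have hun : ∀ n z, dist (U n z) (u z) ≤ C / 2 ^ n := fun n z =>
    dist_le_of_le_geometric_two_of_tendsto (hdist' z) (hu z) n
  have hu0 : ∀ z, dist (U 0 z) (u z) ≤ C := fun z => by simpa using hun 0 z
  refine ⟨u, L, hL0, ?_, ⟨B0 + C, ?_⟩, ⟨z0, w0, ?_⟩, ?_⟩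
  · intro z w
    exact le_of_tendsto ((hu z).sub (hu w)).norm (Eventually.of_forall fun n => hlip n z w)
  · intro z
    have h1 := hu0 z
    rw [dist_comm, dist_eq_norm] at h1
    have h2 : ‖U 0 z‖ ≤ B0 := hB0' z
    calc ‖u z‖ = ‖(u z - U 0 z) + U 0 z‖ := by rw [sub_add_cancel]
      _ ≤ ‖u z - U 0 z‖ + ‖U 0 z‖ := norm_add_le _ _
      _ ≤ B0 + C := by linarith
  · intro h
    have h1 := hu0 z0
    have h2 := hu0 w0
    rw [← h, dist_comm] at h2
    rw [dist_comm] at h1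
    have h3 : ‖p0.2 z0 - p0.2 w0‖ ≤ C + C := by
      rw [← dist_eq_norm]
      calc dist (p0.2 z0) (p0.2 w0) ≤ dist (p0.2 z0) (u z0) + dist (u z0) (p0.2 w0) :=
            dist_triangle _ _ _
        _ ≤ C + C := add_le_add (by rw [dist_comm]; exact h1) h2
    rw [hC] at h3
    have : 0 < ‖p0.2 z0 - p0.2 w0‖ := norm_pos_iff.mpr (sub_ne_zero.mpr hzw)
    linarith
  · intro b q z hz
    obtain ⟨n, hn⟩ := he (b, q)
    obtain ⟨η, hη, hη'⟩ := (hP n).2.2.2
    rw [hn] at hη'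
    simp only at hη'
    set O : Set ℂ := {w | |dir b w - q| < η} with hO
    have hOo : IsOpen O := isOpen_lt (by fun_prop) continuous_const
    have hzO : z ∈ O := by
      simp only [hO]
      show |dir b z - q| < η
      rw [hz]
      simpa using hη
    have hdiff : ∀ m, n + 1 ≤ m → DifferentiableOn ℂ (U m) O := by
      intro m hm w hw
      apply DifferentiableAt.differentiableWithinAt
      apply differentiableAt_of_dbar ((hUs m).differentiable (by simp) w)
      rw [hUd]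
      have h1 : g (n + 1) w = 0 := hη' w hw
      have h2 : g m w ≤ g (n + 1) w := hanti w hm
      have h3 : g m w = 0 := le_antisymm (h2.trans h1.le) (hgnn m w)
      rw [h3]
      simp
    have hunif : TendstoUniformly U u atTop := by
      rw [Metric.tendstoUniformly_iff]
      intro ε hε
      have h1 : Tendsto (fun n : ℕ => C / 2 ^ n) atTop (𝓝 0) := by
        have := tendsto_pow_atTop_nhds_zero_of_lt_one (r := (1 / 2 : ℝ)) (by norm_num) (by norm_num)
        have h2 := this.const_mul C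
        simp only [mul_zero] at h2
        refine h2.congr fun n => ?_
        rw [one_div, inv_pow, div_eq_mul_inv]
      filter_upwards [h1.eventually (gt_mem_nhds hε)] with m hm w
      rw [dist_comm]
      exact (hun m w).trans_lt hm
    have hloc : TendstoLocallyUniformlyOn U u atTop O :=
      hunif.tendstoUniformlyOn.tendstoLocallyUniformlyOn
    have : DifferentiableOn ℂ u O :=
      hloc.differentiableOn (eventually_atTop.mpr ⟨n + 1, hdiff⟩) hOo
    exact this.analyticAt (hOo.mem_nhds hzO)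

end Q71.TD
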