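
import Pool.Agent.Q71.TD.Limit

set_option autoImplicit false


namespace Q71.TD

/-- There is a domain D, a nonempty perfect totally disconnected set P inside D, and f continuous on D, holomorphic on D minus P, not analytic at any point of P, with f(P) totally disconnected. -/
theorem main :
    ∃ (D P : Set ℂ) (f : ℂ → ℂ),
      IsOpen D ∧ IsConnected D ∧
      P ⊆ D ∧ P.Nonempty ∧ Perfect P ∧ IsTotallyDisconnected P ∧
      ContinuousOn f D ∧
      DifferentiableOn ℂ f (D \ P) ∧
      (∀ p ∈ P, ¬ AnalyticAt ℂ f p) ∧
      IsTotallyDisconnected (f '' P) := by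
  obtain ⟨u, L, hL, hlip, ⟨B, hB⟩, ⟨z0, w0, hzw⟩, han⟩ := Q71.TD.exists_u
  set ε : ℝ := 1 / (2 * (L + 1)) with hε
  have hε0 : 0 < ε := by positivity
  have hεc : (ε : ℂ) ≠ 0 := by exact_mod_cast hε0.ne'
  set f : ℂ → ℂ := fun z => z + ε * u z with hf
  set P : Set ℂ := {z | ¬ AnalyticAt ℂ f z} with hP
  have huc : Continuous u := by
    have : LipschitzWith (Real.toNNReal L) u := LipschitzWith.of_dist_le_mul fun z w => by
      rw [dist_eq_norm, dist_eq_norm, Real.coe_toNNReal _ hL]
      exact hlip z w
    exact this.continuous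
  have hfc : Continuous f := continuous_id.add (continuous_const.mul huc)
  have hfu : ∀ z, AnalyticAt ℂ u z → AnalyticAt ℂ f z := fun z h =>
    analyticAt_id.add (analyticAt_const.mul h)
  have hline : ∀ (b : Bool) (q : ℚ) (z : ℂ), z ∈ P → Q71.TD.dir b z ≠ q := fun b q z hz h =>
    hz (hfu z (han b q z h))
  have hPc : IsClosed P := by
    have : P = {z | AnalyticAt ℂ f z}ᶜ := rfl
    rw [this]
    exact (isOpen_analyticAt ℂ f).isClosed_compl
  have hanti : ∀ z w, ‖z - w‖ ≤ 2 * ‖f z - f w‖ := by
    intro z w
    have h1 : ‖(ε : ℂ) * (u z - u w)‖ ≤ 1 / 2 * ‖z - w‖ := by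
      rw [norm_mul, Complex.norm_real, Real.norm_of_nonneg hε0.le]
      calc ε * ‖u z - u w‖ ≤ ε * (L * ‖z - w‖) := by
            gcongr
            exact hlip z w
        _ = (ε * L) * ‖z - w‖ := by ring
        _ ≤ 1 / 2 * ‖z - w‖ := by
            gcongr
            rw [hε, div_mul_eq_mul_div, div_le_iff₀ (by positivity)]
            linarith
    have h2 : z - w = (f z - f w) - (ε : ℂ) * (u z - u w) := by
      simp only [hf]; ring
    have h3 : ‖z - w‖ ≤ ‖f z - f w‖ + ‖(ε : ℂ) * (u z - u w)‖ := by
      conv_lhs => rw [h2]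
      exact norm_sub_le _ _
    linarith
  have hfanti : AntilipschitzWith 2 f := AntilipschitzWith.of_le_mul_dist fun z w => by
    rw [dist_eq_norm, dist_eq_norm]
    exact_mod_cast hanti z w
  have hfi : Topology.IsInducing f := by
    have hlipf : LipschitzWith (Real.toNNReal (1 + ε * L)) f :=
      LipschitzWith.of_dist_le_mul fun z w => by
        rw [dist_eq_norm, dist_eq_norm, Real.coe_toNNReal _ (by positivity)]
        have h2 : f z - f w = (z - w) + (ε : ℂ) * (u z - u w) := by
          simp only [hf]; ring
        rw [h2]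
        calc ‖(z - w) + (ε : ℂ) * (u z - u w)‖ ≤ ‖z - w‖ + ‖(ε : ℂ) * (u z - u w)‖ :=
              norm_add_le _ _
          _ ≤ ‖z - w‖ + ε * (L * ‖z - w‖) := by
              gcongr
              rw [norm_mul, Complex.norm_real, Real.norm_of_nonneg hε0.le]
              gcongr
              exact hlip z w
          _ = _ := by ring
    exact (hfanti.isUniformInducing hlipf.uniformContinuous).isInducing
  have htd : IsTotallyDisconnected P := by
    intro S hS hpre z hz w hw
    by_contra hne
    have hkey : ∀ b : Bool, Q71.TD.dir b z = Q71.TD.dir b w := by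
      intro b
      by_contra hb
      have himg : IsPreconnected (Q71.TD.dir b '' S) :=
        hpre.image _ (Q71.TD.dir b).continuous.continuousOn
      have hord := himg.ordConnected
      rcases lt_or_gt_of_ne hb with h | h
      · obtain ⟨q, hq1, hq2⟩ := exists_rat_btwn h
        obtain ⟨x, hx, hxq⟩ := hord.out ⟨z, hz, rfl⟩ ⟨w, hw, rfl⟩ ⟨hq1.le, hq2.le⟩
        exact hline b q x (hS hx) hxq
      · obtain ⟨q, hq1, hq2⟩ := exists_rat_btwn h
        obtain ⟨x, hx, hxq⟩ := hord.out ⟨w, hw, rfl⟩ ⟨z, hz, rfl⟩ ⟨hq1.le, hq2.le⟩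
        exact hline b q x (hS hx) hxq
    apply hne
    apply Complex.ext
    · have := hkey true
      simpa [Q71.TD.dir] using this
    · have := hkey false
      simpa [Q71.TD.dir] using this
  refine ⟨Set.univ, P, f, isOpen_univ, isConnected_univ, Set.subset_univ _, ?_, ⟨hPc, ?_⟩, htd,
    hfc.continuousOn, ?_, fun p hp => hp, ?_⟩
  · by_contra hemp
    rw [Set.not_nonempty_iff_eq_empty] at hemp
    have hall : ∀ z, AnalyticAt ℂ f z := by
      intro z
      by_contra hz
      have : z ∈ P := hz
      rw [hemp] at this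
      exact this
    have hfd : Differentiable ℂ f := fun z => (hall z).differentiableAt
    have hud : Differentiable ℂ u := by
      have : u = fun z => (ε : ℂ)⁻¹ * (f z - z) := by
        funext z
        simp only [hf]
        field_simp
        ring
      rw [this]
      exact (hfd.sub differentiable_id).const_mul _
    have hbd : Bornology.IsBounded (Set.range u) := by
      rw [isBounded_iff_forall_norm_le]
      refine ⟨B, ?_⟩
      rintro _ ⟨z, rfl⟩
      exact hB z
    exact hzw (hud.apply_eq_apply_of_bounded hbd z0 w0)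
  · intro x hx
    rw [accPt_iff_frequently]
    intro hev
    apply hx
    apply Complex.analyticAt_of_differentiable_on_punctured_nhds_of_continuousAt _
      hfc.continuousAt
    rw [eventually_nhdsWithin_iff]
    filter_upwards [hev] with y hy hne
    have hyP : y ∉ P := fun h => hy ⟨hne, h⟩
    have : AnalyticAt ℂ f y := not_not.mp hyP
    exact this.differentiableAt
  · intro z hz
    have : AnalyticAt ℂ f z := not_not.mp hz.2
    exact this.differentiableAt.differentiableWithinAt
  · intro T hT hpre
    set S : Set ℂ := P ∩ f ⁻¹' T with hS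
    have hST : f '' S = T := by
      ext y
      constructor
      · rintro ⟨x, hx, rfl⟩
        exact hx.2
      · intro hy
        obtain ⟨x, hx, rfl⟩ := hT hy
        exact ⟨x, ⟨hx, hy⟩, rfl⟩
    have hSpre : IsPreconnected S := by
      rw [← hfi.isPreconnected_image, hST]
      exact hpre
    have hSsub : S.Subsingleton := htd S Set.inter_subset_left hSpre
    rw [← hST]
    exact hSsub.image f

end Q71.TD
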