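import Pool.Agent.Q71.TD.Step

set_option autoImplicit false
open MeasureTheory Set Filter Topology Metric Complex
open scoped ContDiff ENNReal

namespace Q71.TD

open Q71.UC (dbar1 dbar1_mul)

lemma vol_re (q δ R : ℝ) (hδ : 0 < δ) (hR : 0 < R) :
    volume ({w : ℂ | |reCLM w - q| < δ} ∩ closedBall 0 R) ≤ ENNReal.ofReal (4 * R * δ) := by
  have hsub : {w : ℂ | |reCLM w - q| < δ} ∩ closedBall 0 R ⊆
      Complex.measurableEquivRealProd ⁻¹' (Ioo (q - δ) (q + δ) ×ˢ Icc (-R) R) := by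
    rintro w ⟨h1, h2⟩
    have h3 : ‖w‖ ≤ R := by simpa using h2
    have h1' : |w.re - q| < δ := h1
    rw [abs_lt] at h1'
    have h4 := abs_le.mp ((Complex.abs_im_le_norm w).trans h3)
    refine ⟨⟨?_, ?_⟩, ⟨?_, ?_⟩⟩
    · simp only [measurableEquivRealProd_apply]; linarith
    · simp only [measurableEquivRealProd_apply]; linarith
    · simp only [measurableEquivRealProd_apply]; linarith
    · simp only [measurableEquivRealProd_apply]; linarith
  refine (measure_mono hsub).trans ?_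
  rw [Complex.volume_preserving_equiv_real_prod.measure_preimage
    (measurableSet_Ioo.prod measurableSet_Icc).nullMeasurableSet]
  rw [Measure.volume_eq_prod, Measure.prod_prod, Real.volume_Ioo, Real.volume_Icc,
    ← ENNReal.ofReal_mul (by linarith)]
  apply ENNReal.ofReal_le_ofReal
  nlinarith

lemma vol_im (q δ R : ℝ) (hδ : 0 < δ) (hR : 0 < R) :
    volume ({w : ℂ | |imCLM w - q| < δ} ∩ closedBall 0 R) ≤ ENNReal.ofReal (4 * R * δ) := by
  have hsub : {w : ℂ | |imCLM w - q| < δ} ∩ closedBall 0 R ⊆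
      Complex.measurableEquivRealProd ⁻¹' (Icc (-R) R ×ˢ Ioo (q - δ) (q + δ)) := by
    rintro w ⟨h1, h2⟩
    have h3 : ‖w‖ ≤ R := by simpa using h2
    have h1' : |w.im - q| < δ := h1
    rw [abs_lt] at h1'
    have h4 := abs_le.mp ((Complex.abs_re_le_norm w).trans h3)
    refine ⟨⟨?_, ?_⟩, ⟨?_, ?_⟩⟩
    · simp only [measurableEquivRealProd_apply]; linarith
    · simp only [measurableEquivRealProd_apply]; linarith
    · simp only [measurableEquivRealProd_apply]; linarith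
    · simp only [measurableEquivRealProd_apply]; linarith
  refine (measure_mono hsub).trans ?_
  rw [Complex.volume_preserving_equiv_real_prod.measure_preimage
    (measurableSet_Icc.prod measurableSet_Ioo).nullMeasurableSet]
  rw [Measure.volume_eq_prod, Measure.prod_prod, Real.volume_Ioo, Real.volume_Icc,
    ← ENNReal.ofReal_mul (by linarith)]
  apply ENNReal.ofReal_le_ofReal
  nlinarith

/-- the two coordinate functionals -/
noncomputable def dir (b : Bool) : ℂ →L[ℝ] ℝ := if b then reCLM else imCLM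

/-- a smooth nonnegative density in the unit disc together with a solution of `∂̄u = g` -/
def Good (p : (ℂ → ℝ) × (ℂ → ℂ)) : Prop :=
  ContDiff ℝ ∞ p.1 ∧ (∀ z, 0 ≤ p.1 z) ∧ (∀ z, 1 < ‖z‖ → p.1 z = 0) ∧ ContDiff ℝ ∞ p.2 ∧
    ∀ z, dbar1 p.2 z = (p.1 z : ℂ)

/-- one cutting step -/
def Rel (b : Bool) (q : ℝ) (ε : ℝ) (p p' : (ℂ → ℝ) × (ℂ → ℂ)) : Prop :=
  (∀ z, p'.1 z ≤ p.1 z) ∧ (∀ z, ‖p'.2 z - p.2 z‖ ≤ ε) ∧
    (∀ z, ‖fderiv ℝ p'.2 z - fderiv ℝ p.2 z‖ ≤ 2 * (p.1 z - p'.1 z) + ε) ∧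
    ∃ η : ℝ, 0 < η ∧ ∀ z, |dir b z - q| < η → p'.1 z = 0

lemma exists_next (b : Bool) (q : ℝ) {ε : ℝ} (hε : 0 < ε) {p : (ℂ → ℝ) × (ℂ → ℂ)} (hp : Good p) :
    ∃ p', Good p' ∧ Rel b q ε p p' := by
  obtain ⟨hg, hg0, hgR, hu, hd⟩ := hp
  have key : ∃ (a : ℂ → ℝ) (v : ℂ → ℂ) (η : ℝ), 0 < η ∧ ContDiff ℝ ∞ a ∧ (∀ z, 0 ≤ a z) ∧
      (∀ z, a z ≤ 1) ∧ (∀ z, |dir b z - q| < η → a z = 1) ∧ ContDiff ℝ ∞ v ∧
      (∀ z, dbar1 v z = ((a z * p.1 z : ℝ) : ℂ)) ∧ (∀ z, ‖v z‖ ≤ ε) ∧
      (∀ z, ‖fderiv ℝ v z‖ ≤ 2 * (a z * p.1 z) + ε) := by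
    cases b with
    | true =>
      refine step (dir true) 2 (by simp) ?_ ?_ ?_ p.1 hg hg0 one_pos hgR q hε
      · simp [dir]
      · intro v; simp only [dir, if_true, reCLM_apply]; exact Complex.abs_re_le_norm v
      · exact vol_re
    | false =>
      refine step (dir false) (-2 * I) (by simp) ?_ ?_ ?_ p.1 hg hg0 one_pos hgR q hε
      · simp [dir]
        linear_combination -I_mul_I
      · intro v; simp only [dir, imCLM_apply]; exact Complex.abs_im_le_norm v
      · exact vol_im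
  obtain ⟨a, v, η, hη, ha, ha0, ha1, haone, hv, hvd, hvb, hvD⟩ := key
  have dv : ∀ z, DifferentiableAt ℝ v z := fun z => hv.differentiable (by simp) z
  have du : ∀ z, DifferentiableAt ℝ p.2 z := fun z => hu.differentiable (by simp) z
  refine ⟨(fun z => (1 - a z) * p.1 z, fun z => p.2 z - v z),
    ⟨(contDiff_const.sub ha).mul hg, ?_, ?_, hu.sub hv, ?_⟩, ?_, ?_, ?_, η, hη, ?_⟩
  · intro z
    exact mul_nonneg (by linarith [ha1 z]) (hg0 z)
  · intro z hz
    simp [hgR z hz]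
  · intro z
    have e1 : dbar1 (fun z => p.2 z - v z) z = dbar1 p.2 z - dbar1 v z := by
      unfold dbar1
      rw [fderiv_fun_sub (du z) (dv z)]
      simp only [sub_apply]
      ring
    rw [e1, hd, hvd]
    push_cast
    ring
  · intro z
    have := mul_nonneg (ha0 z) (hg0 z)
    simp only
    nlinarith
  · intro z
    simp only [sub_sub_cancel_left, norm_neg]
    exact hvb z
  · intro z
    simp only
    rw [fderiv_fun_sub (du z) (dv z), sub_sub_cancel_left, norm_neg]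
    refine (hvD z).trans (le_of_eq ?_)
    ring
  · intro z hz
    simp [haone z hz]

/-- the initial density -/
noncomputable def g0 : ContDiffBump (0 : ℂ) := ⟨1 / 2, 1, by norm_num, by norm_num⟩

/-- the initial pair -/
noncomputable def p0 : (ℂ → ℝ) × (ℂ → ℂ) := (fun z => g0 z, Ct (fun z => (g0 z : ℂ)))

lemma G0_contDiff : ContDiff ℝ ∞ (fun z => (g0 z : ℂ)) := ofRealCLM.contDiff.comp g0.contDiff

lemma G0_zero {z : ℂ} (hz : 1 ≤ ‖z‖) : g0 z = 0 := by
  apply g0.zero_of_le_dist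
  rw [dist_zero_right]
  exact hz

lemma G0_compact : HasCompactSupport (fun z => (g0 z : ℂ)) := by
  refine HasCompactSupport.intro (isCompact_closedBall (0 : ℂ) 1) ?_
  intro z hz
  have : 1 < ‖z‖ := by simpa using hz
  simp [G0_zero this.le]

lemma good_p0 : Good p0 := by
  refine ⟨g0.contDiff, fun z => g0.nonneg, fun z hz => G0_zero hz.le,
    Ct_contDiff G0_contDiff G0_compact, fun z => ?_⟩
  exact Ct_dbar (G0_contDiff.of_le (by exact_mod_cast le_top)) G0_compact z

lemma p0_bound : ∃ B : ℝ, 0 ≤ B ∧ ∀ z, ‖p0.2 z‖ ≤ B := by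
  refine ⟨0 * (2 * 1 + Real.pi / 1) + 1 * (2 + Real.pi), by positivity, fun z => ?_⟩
  have hB : MeasurableSet (closedBall (0 : ℂ) 1) := measurableSet_closedBall
  have hvB : volume (closedBall (0 : ℂ) 1) ≤ ENNReal.ofReal Real.pi := by
    rw [Complex.volume_closedBall]
    rw [← NNReal.coe_real_pi, ENNReal.ofReal_coe_nnreal]
    simp
  apply Ct_le hB hB le_rfl zero_le_one Real.pi_pos.le Real.pi_pos.le one_pos _ hvB hvB z
  intro w
  by_cases hw : w ∈ closedBall (0 : ℂ) 1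
  · rw [indicator_of_mem hw, Complex.norm_real, Real.norm_eq_abs, abs_of_nonneg g0.nonneg]
    have := g0.le_one (x := w)
    linarith
  · have : 1 < ‖w‖ := by simpa using hw
    rw [G0_zero this.le]
    simp [hw]

lemma p0_deriv_bound : ∃ B : ℝ, 0 ≤ B ∧ ∀ z, ‖fderiv ℝ p0.2 z‖ ≤ B := by
  have h1 : ContDiff ℝ 1 (fun z => (g0 z : ℂ)) := G0_contDiff.of_le (by exact_mod_cast le_top)
  obtain ⟨K, hK⟩ := (G0_compact.fderiv ℝ).exists_bound_of_continuous
    (h1.continuous_fderiv one_ne_zero)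
  have hK0 : 0 ≤ K := (norm_nonneg _).trans (hK 0)
  refine ⟨K * (2 + Real.pi), by positivity, fun z => ?_⟩
  apply ContinuousLinearMap.opNorm_le_bound _ (by positivity)
  intro h
  have hB : MeasurableSet (closedBall (0 : ℂ) 1) := measurableSet_closedBall
  have hvB : volume (closedBall (0 : ℂ) 1) ≤ ENNReal.ofReal Real.pi := by
    rw [Complex.volume_closedBall]
    rw [← NNReal.coe_real_pi, ENNReal.ofReal_coe_nnreal]
    simp
  have : ‖fderiv ℝ p0.2 z h‖ ≤ 0 * (2 * 1 + Real.pi / 1) + (K * ‖h‖) * (2 + Real.pi) := by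
    simp only [p0]
    rw [Ct_fderiv h1 G0_compact]
    apply Ct_le hB hB le_rfl (by positivity) Real.pi_pos.le Real.pi_pos.le one_pos _ hvB hvB z
    intro w
    by_cases hw : w ∈ closedBall (0 : ℂ) 1
    · rw [indicator_of_mem hw]
      have := (ContinuousLinearMap.le_opNorm (fderiv ℝ (fun z => (g0 z : ℂ)) w) h).trans
        (mul_le_mul_of_nonneg_right (hK w) (norm_nonneg h))
      linarith
    · have hw' : 1 < ‖w‖ := by simpa using hw
      have : (fun z => (g0 z : ℂ)) =ᶠ[𝓝 w] fun _ => 0 := by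
        have := continuous_norm.continuousAt.eventually_mem (Ioi_mem_nhds hw')
        filter_upwards [this] with x hx
        have hx' : 1 < ‖x‖ := hx
        simp [G0_zero hx'.le]
      rw [this.fderiv_eq]
      simp [hw]
  calc _ ≤ _ := this
    _ = _ := by ring

lemma p0_nonconst : ∃ z w, p0.2 z ≠ p0.2 w := by
  by_contra h
  push Not at h
  have h1 : p0.2 = fun _ => p0.2 0 := by
    funext z
    exact h z 0
  have h2 := good_p0.2.2.2.2 0
  rw [h1] at h2
  have h3 : p0.1 0 = 1 := g0.one_of_mem_closedBall (by simp [g0])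
  rw [h3] at h2
  simp [dbar1] at h2

end Q71.TD
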