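import Pool.Agent.Q71.TD.Cauchy

set_option autoImplicit false
open MeasureTheory Set Filter Topology Metric Complex
open scoped ContDiff ENNReal Interval

namespace Q71.TD

open Q71.UC (dbar1 dbar1_mul)

/-- a plateau function on the line together with a small primitive -/
lemma plateau (q : ℝ) {δ : ℝ} (hδ : 0 < δ) : ∃ f Θ : ℝ → ℝ, ContDiff ℝ ∞ f ∧ ContDiff ℝ ∞ Θ ∧
    (∀ y, HasDerivAt Θ (f y) y) ∧ (∀ y, 0 ≤ f y) ∧ (∀ y, f y ≤ 1) ∧
    (∀ y, |y - q| < δ / 2 → f y = 1) ∧ (∀ y, δ ≤ |y - q| → f y = 0) ∧ (∀ y, |Θ y| ≤ 2 * δ) := by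
  let F : ContDiffBump q := ⟨δ / 2, δ, by positivity, by linarith⟩
  have hF : ContDiff ℝ ∞ (F : ℝ → ℝ) := F.contDiff
  have hFc : Continuous (F : ℝ → ℝ) := hF.continuous
  have hFi : Integrable (F : ℝ → ℝ) := hFc.integrable_of_hasCompactSupport F.hasCompactSupport
  have hD : ∀ y, HasDerivAt (fun y => ∫ t in q..y, F t) (F y) y := fun y =>
    intervalIntegral.integral_hasDerivAt_right (hFc.intervalIntegrable _ _)
      (hFc.stronglyMeasurableAtFilter _ _) hFc.continuousAt
  refine ⟨F, fun y => ∫ t in q..y, F t, hF, ?_, hD, fun y => F.nonneg, fun y => F.le_one, ?_, ?_, ?_⟩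
  · rw [contDiff_infty_iff_deriv]
    refine ⟨fun y => (hD y).differentiableAt, ?_⟩
    have : deriv (fun y => ∫ t in q..y, F t) = F := by
      funext y
      exact (hD y).deriv
    rw [this]
    exact hF
  · intro y hy
    apply F.one_of_mem_closedBall
    rw [mem_closedBall, Real.dist_eq]
    exact hy.le
  · intro y hy
    apply F.zero_of_le_dist
    rw [Real.dist_eq]
    exact hy
  · intro y
    calc |∫ t in q..y, F t| ≤ ∫ t in Ι q y, |F t| := by
          have := intervalIntegral.norm_integral_le_integral_norm_uIoc (f := (F : ℝ → ℝ)) (a := q)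
            (b := y) (μ := volume)
          simpa [Real.norm_eq_abs] using this
      _ = ∫ t in Ι q y, F t := by
          congr 1
          funext t
          exact abs_of_nonneg F.nonneg
      _ ≤ ∫ t, F t := setIntegral_le_integral hFi (Eventually.of_forall fun t => F.nonneg)
      _ ≤ volume.real (closedBall q δ) := F.integral_le_measure_closedBall volume
      _ = 2 * δ := by
          rw [Measure.real, Real.volume_closedBall, ENNReal.toReal_ofReal (by positivity)]

lemma dbar1_ofReal_comp {ℓ : ℂ →L[ℝ] ℝ} {Θ : ℝ → ℝ} {f : ℝ} {z : ℂ}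
    (h : HasDerivAt Θ f (ℓ z)) :
    HasFDerivAt (fun w => ((Θ (ℓ w) : ℝ) : ℂ)) (ofRealCLM.comp (f • ℓ)) z := by
  have h1 : HasFDerivAt (fun w => Θ (ℓ w)) (f • ℓ) z := by
    have := h.comp_hasFDerivAt z ℓ.hasFDerivAt
    exact this
  exact ofRealCLM.hasFDerivAt.comp z h1

lemma step (ℓ : ℂ →L[ℝ] ℝ) (c : ℂ) (hc2 : ‖c‖ ≤ 2)
    (hc : c * (1 / 2 * ((ℓ 1 : ℂ) + I * (ℓ I : ℂ))) = 1) (hℓ : ∀ v, |ℓ v| ≤ ‖v‖)
    (hvol : ∀ q δ R : ℝ, 0 < δ → 0 < R →
      volume ({w : ℂ | |ℓ w - q| < δ} ∩ closedBall 0 R) ≤ ENNReal.ofReal (4 * R * δ))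
    (g : ℂ → ℝ) (hg : ContDiff ℝ ∞ g) (hg0 : ∀ z, 0 ≤ g z) {R : ℝ} (hR : 0 < R)
    (hgR : ∀ z, R < ‖z‖ → g z = 0) (q : ℝ) {ε : ℝ} (hε : 0 < ε) :
    ∃ (a : ℂ → ℝ) (v : ℂ → ℂ) (η : ℝ), 0 < η ∧ ContDiff ℝ ∞ a ∧ (∀ z, 0 ≤ a z) ∧
      (∀ z, a z ≤ 1) ∧ (∀ z, |ℓ z - q| < η → a z = 1) ∧ ContDiff ℝ ∞ v ∧
      (∀ z, dbar1 v z = ((a z * g z : ℝ) : ℂ)) ∧ (∀ z, ‖v z‖ ≤ ε) ∧
      (∀ z, ‖fderiv ℝ v z‖ ≤ 2 * (a z * g z) + ε) := by
  set G : ℂ → ℂ := fun z => (g z : ℂ) with hG
  have hGs : ContDiff ℝ ∞ G := ofRealCLM.contDiff.comp hg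
  have hGR : ∀ z, R < ‖z‖ → G z = 0 := fun z hz => by simp [hG, hgR z hz]
  have hev : ∀ z : ℂ, R < ‖z‖ → ∀ᶠ w in 𝓝 z, R < ‖w‖ := fun z hz =>
    continuous_norm.continuousAt.eventually_mem (Ioi_mem_nhds hz)
  set dG : ℂ → ℂ := dbar1 G with hdG
  have hfG : ContDiff ℝ ∞ (fderiv ℝ G) := hGs.fderiv_right (m := ∞) (by simp)
  have hdGs : ContDiff ℝ ∞ dG := by
    have : dG = fun z => (1 / 2 : ℂ) * (fderiv ℝ G z 1 + I * fderiv ℝ G z I) := rfl
    rw [this]
    exact contDiff_const.mul ((hfG.clm_apply contDiff_const).add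
      (contDiff_const.mul (hfG.clm_apply contDiff_const)))
  have hfGR : ∀ z, R < ‖z‖ → fderiv ℝ G z = 0 := by
    intro z hz
    have : G =ᶠ[𝓝 z] fun _ => 0 := (hev z hz).mono fun w hw => hGR w hw
    rw [this.fderiv_eq]
    simp
  have hdGR : ∀ z, R < ‖z‖ → dG z = 0 := by
    intro z hz
    simp only [hdG, dbar1, hfGR z hz]
    simp
  have hfdGR : ∀ z, R < ‖z‖ → fderiv ℝ dG z = 0 := by
    intro z hz
    have : dG =ᶠ[𝓝 z] fun _ => 0 := (hev z hz).mono fun w hw => hdGR w hw
    rw [this.fderiv_eq]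
    simp
  have cs : ∀ {F : Type} [NormedAddCommGroup F] (k : ℂ → F), (∀ z, R < ‖z‖ → k z = 0) →
      HasCompactSupport k := by
    intro F _ k hk
    refine HasCompactSupport.intro (isCompact_closedBall (0 : ℂ) R) ?_
    intro z hz
    apply hk
    simpa using hz
  obtain ⟨K0, hK0⟩ := (cs G hGR).exists_bound_of_continuous hGs.continuous
  obtain ⟨K1, hK1⟩ := (cs _ hfGR).exists_bound_of_continuous hfG.continuous
  obtain ⟨K2, hK2⟩ := (cs _ hdGR).exists_bound_of_continuous hdGs.continuous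
  obtain ⟨K3, hK3⟩ := (cs _ hfdGR).exists_bound_of_continuous
    (hdGs.continuous_fderiv (by simp))
  set K : ℝ := 1 + |K0| + |K1| + |K2| + |K3| with hK
  have hKpos : 0 < K := by positivity
  have bd0 : ∀ z, ‖G z‖ ≤ K := fun z => (hK0 z).trans (by
    have := le_abs_self K0; have := abs_nonneg K1; have := abs_nonneg K2
    have := abs_nonneg K3; linarith)
  have bd1 : ∀ z, ‖fderiv ℝ G z‖ ≤ K := fun z => (hK1 z).trans (by
    have := le_abs_self K1; have := abs_nonneg K0; have := abs_nonneg K2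
    have := abs_nonneg K3; linarith)
  have bd2 : ∀ z, ‖dG z‖ ≤ K := fun z => (hK2 z).trans (by
    have := le_abs_self K2; have := abs_nonneg K1; have := abs_nonneg K0
    have := abs_nonneg K3; linarith)
  have bd3 : ∀ z, ‖fderiv ℝ dG z‖ ≤ K := fun z => (hK3 z).trans (by
    have := le_abs_self K3; have := abs_nonneg K1; have := abs_nonneg K2
    have := abs_nonneg K0; linarith)
  -- the parameters
  set C : ℝ := K * (4 + 4 * (2 + Real.pi * R ^ 2) + (4 + 8 * R)) with hC
  have hCpos : 0 < C := by positivity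
  obtain ⟨d, hd0, hd1, hdC⟩ : ∃ d : ℝ, 0 < d ∧ d ≤ 1 ∧ C * d ≤ ε := by
    refine ⟨min 1 (ε / C), by positivity, min_le_left _ _, ?_⟩
    calc C * min 1 (ε / C) ≤ C * (ε / C) := by
          gcongr
          exact min_le_right _ _
      _ = ε := by field_simp
  have hδ : 0 < d ^ 2 := by positivity
  obtain ⟨f, Θ, hf, hΘ, hD, hf0, hf1, hfone, hfzero, hΘb⟩ := plateau q hδ
  set T : ℂ → ℂ := fun w => ((Θ (ℓ w) : ℝ) : ℂ) with hT
  have hTs : ContDiff ℝ ∞ T := ofRealCLM.contDiff.comp (hΘ.comp ℓ.contDiff)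
  have hTd : ∀ z, HasFDerivAt T (ofRealCLM.comp (f (ℓ z) • ℓ)) z := fun z =>
    dbar1_ofReal_comp (hD (ℓ z))
  have hTb : ∀ z, ‖T z‖ ≤ 2 * d ^ 2 := by
    intro z
    simp only [hT, Complex.norm_real, Real.norm_eq_abs]
    exact hΘb _
  have hTdbar : ∀ z, c * dbar1 T z = (f (ℓ z) : ℂ) := by
    intro z
    unfold dbar1
    rw [(hTd z).fderiv]
    simp only [ContinuousLinearMap.comp_apply, smul_apply, smul_eq_mul, ofRealCLM_apply]
    push_cast
    linear_combination (f (ℓ z) : ℂ) * hc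
  set s : ℂ → ℂ := fun z => c * (T z * dG z) with hs
  have hss : ContDiff ℝ ∞ s := contDiff_const.mul (hTs.mul hdGs)
  have hsR : ∀ z, R < ‖z‖ → s z = 0 := fun z hz => by simp [hs, hdGR z hz]
  have hsc : HasCompactSupport s := cs s hsR
  have hs1 : ContDiff ℝ 1 s := hss.of_le (by exact_mod_cast le_top)
  set W : ℂ → ℂ := fun z => c * (T z * G z) with hW
  have hWs : ContDiff ℝ ∞ W := contDiff_const.mul (hTs.mul hGs)
  have dT : ∀ z, DifferentiableAt ℝ T z := fun z => (hTd z).differentiableAt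
  have dGd : ∀ z, DifferentiableAt ℝ G z := fun z => hGs.differentiable (by simp) z
  have ddG : ∀ z, DifferentiableAt ℝ dG z := fun z => hdGs.differentiable (by simp) z
  have hCts : ContDiff ℝ ∞ (Ct s) := Ct_contDiff hss hsc
  -- volume facts
  have hB : MeasurableSet (closedBall (0 : ℂ) R) := measurableSet_closedBall
  have hvB : volume (closedBall (0 : ℂ) R) ≤ ENNReal.ofReal (Real.pi * R ^ 2) := by
    rw [Complex.volume_closedBall, mul_comm, ENNReal.ofReal_mul Real.pi_pos.le,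
      ENNReal.ofReal_pow hR.le]
    gcongr
    rw [← NNReal.coe_real_pi, ENNReal.ofReal_coe_nnreal]
  set S : Set ℂ := {w : ℂ | |ℓ w - q| < d ^ 2} ∩ closedBall 0 R with hS
  have hSm : MeasurableSet S := by
    apply MeasurableSet.inter _ hB
    exact (isOpen_lt (by fun_prop) continuous_const).measurableSet
  have hvS := hvol q (d ^ 2) R hδ hR
  refine ⟨fun z => f (ℓ z), fun z => W z - Ct s z, d ^ 2 / 2, by positivity,
    hf.comp ℓ.contDiff, fun z => hf0 _, fun z => hf1 _, fun z hz => hfone _ hz,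
    hWs.sub hCts, ?_, ?_, ?_⟩
  · intro z
    have e1 : dbar1 (fun z => W z - Ct s z) z = dbar1 W z - dbar1 (Ct s) z := by
      unfold dbar1
      rw [fderiv_fun_sub (hWs.differentiable (by simp) z) (hCts.differentiable (by simp) z)]
      simp only [sub_apply]
      ring
    have e2 : dbar1 W z = c * (dbar1 T z * G z + T z * dG z) := by
      have h1 := dbar1_mul (f := fun _ => c) (g := fun z => T z * G z) (z := z)
        (differentiableAt_const c) ((dT z).mul (dGd z))
      have h2 : dbar1 (fun _ : ℂ => c) z = 0 := by simp [dbar1]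
      rw [h2, dbar1_mul (dT z) (dGd z)] at h1
      rw [show W = fun z => (fun _ => c) z * (fun z => T z * G z) z from rfl, h1]
      ring
    rw [e1, e2, Ct_dbar hs1 hsc]
    simp only [hs]
    push_cast
    linear_combination (G z) * hTdbar z
  · intro z
    have h1 : ‖W z‖ ≤ 2 * (2 * d ^ 2 * K) := by
      simp only [hW, norm_mul]
      gcongr
      · exact hTb z
      · exact bd0 z
    have h2 : ‖Ct s z‖ ≤ 0 * (2 * 1 + (Real.pi * R ^ 2) / 1) +
        (2 * (2 * d ^ 2 * K)) * (2 + Real.pi * R ^ 2) := by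
      apply Ct_le hB hB le_rfl (by positivity) (by positivity) (by positivity) one_pos _ hvB hvB z
      intro w
      by_cases hw : w ∈ closedBall (0 : ℂ) R
      · rw [indicator_of_mem hw]
        simp only [hs, norm_mul, mul_one, zero_mul, zero_add]
        gcongr
        · exact hTb w
        · exact bd2 w
      · rw [hsR w (by simpa using hw)]
        simp [hw]
    have h3 : d ^ 2 ≤ d := by nlinarith
    calc ‖W z - Ct s z‖ ≤ ‖W z‖ + ‖Ct s z‖ := norm_sub_le _ _
      _ ≤ 2 * (2 * d ^ 2 * K) + (0 * (2 * 1 + (Real.pi * R ^ 2) / 1) +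
        (2 * (2 * d ^ 2 * K)) * (2 + Real.pi * R ^ 2)) := add_le_add h1 h2
      _ = d ^ 2 * (K * (4 + 4 * (2 + Real.pi * R ^ 2))) := by ring
      _ ≤ d * (K * (4 + 4 * (2 + Real.pi * R ^ 2))) := by gcongr
      _ ≤ d * C := by
          refine mul_le_mul_of_nonneg_left ?_ hd0.le
          rw [hC]
          refine mul_le_mul_of_nonneg_left ?_ hKpos.le
          have : 0 ≤ 4 + 8 * R := by positivity
          linarith
      _ ≤ ε := (mul_comm d C).le.trans hdC
  · intro z
    apply ContinuousLinearMap.opNorm_le_bound _ (by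
      have := hf0 (ℓ z); have := hg0 z; positivity)
    intro h
    have e1 : fderiv ℝ (fun z => W z - Ct s z) z h = fderiv ℝ W z h - fderiv ℝ (Ct s) z h := by
      rw [fderiv_fun_sub (hWs.differentiable (by simp) z) (hCts.differentiable (by simp) z)]
      rfl
    have e2 : ∀ (k : ℂ → ℂ) (z : ℂ), DifferentiableAt ℝ k z → fderiv ℝ (fun z => c * (T z * k z)) z h =
        c * ((f (ℓ z) * ℓ h : ℝ) * k z + T z * fderiv ℝ k z h) := by
      intro k z hk
      rw [fderiv_const_mul (a := fun z => T z * k z) ((dT z).mul hk), fderiv_fun_mul (dT z) hk,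
        (hTd z).fderiv]
      simp only [add_apply, smul_apply, ContinuousLinearMap.comp_apply, smul_eq_mul,
        ofRealCLM_apply]
      push_cast
      ring
    have e3 : fderiv ℝ W z h = c * ((f (ℓ z) * ℓ h : ℝ) * G z + T z * fderiv ℝ G z h) :=
      e2 G z (dGd z)
    have b1 : ‖fderiv ℝ W z h‖ ≤ 2 * (f (ℓ z) * g z) * ‖h‖ + 2 * (2 * d ^ 2 * (K * ‖h‖)) := by
      rw [e3, norm_mul]
      calc ‖c‖ * ‖((f (ℓ z) * ℓ h : ℝ) : ℂ) * G z + T z * fderiv ℝ G z h‖
          ≤ 2 * (‖((f (ℓ z) * ℓ h : ℝ) : ℂ) * G z‖ + ‖T z * fderiv ℝ G z h‖) := by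
            gcongr
            exact norm_add_le _ _
        _ ≤ 2 * (f (ℓ z) * ‖h‖ * g z + 2 * d ^ 2 * (K * ‖h‖)) := by
            gcongr
            · rw [norm_mul, Complex.norm_real, Real.norm_eq_abs, abs_mul, abs_of_nonneg (hf0 _)]
              have : ‖G z‖ = g z := by
                simp only [hG, Complex.norm_real, Real.norm_eq_abs, abs_of_nonneg (hg0 z)]
              rw [this]
              have := hg0 z
              have := hf0 (ℓ z)
              gcongr
              exact hℓ h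
            · rw [norm_mul]
              gcongr
              · exact hTb z
              · exact (ContinuousLinearMap.le_opNorm _ _).trans (by gcongr; exact bd1 z)
        _ = _ := by ring
    have b2 : ‖fderiv ℝ (Ct s) z h‖ ≤ (2 * (K * ‖h‖)) * (2 * d + (4 * R * d ^ 2) / d) +
        (2 * (2 * d ^ 2 * (K * ‖h‖))) * (2 + Real.pi * R ^ 2) := by
      rw [Ct_fderiv hs1 hsc]
      apply Ct_le hSm hB (by positivity) (by positivity) (by positivity) (by positivity) hd0 _
        hvS hvB z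
      intro w
      by_cases hw : w ∈ closedBall (0 : ℂ) R
      · have e4 : fderiv ℝ s w h = c * ((f (ℓ w) * ℓ h : ℝ) * dG w + T w * fderiv ℝ dG w h) :=
          e2 dG w (ddG w)
        rw [e4, indicator_of_mem hw, norm_mul]
        have hfi : f (ℓ w) ≤ S.indicator (fun _ => (1 : ℝ)) w := by
          by_cases hwS : |ℓ w - q| < d ^ 2
          · rw [indicator_of_mem (show w ∈ S from ⟨hwS, hw⟩)]
            exact hf1 _
          · rw [hfzero _ (not_lt.mp hwS)]
            exact indicator_nonneg (fun _ _ => zero_le_one) _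
        have hin : 0 ≤ S.indicator (fun _ => (1 : ℝ)) w := (hf0 _).trans hfi
        calc ‖c‖ * ‖((f (ℓ w) * ℓ h : ℝ) : ℂ) * dG w + T w * fderiv ℝ dG w h‖
            ≤ 2 * (‖((f (ℓ w) * ℓ h : ℝ) : ℂ) * dG w‖ + ‖T w * fderiv ℝ dG w h‖) := by
              gcongr
              exact norm_add_le _ _
          _ ≤ 2 * (S.indicator (fun _ => (1 : ℝ)) w * ‖h‖ * K + 2 * d ^ 2 * (K * ‖h‖)) := by
              gcongr
              · rw [norm_mul, Complex.norm_real, Real.norm_eq_abs, abs_mul, abs_of_nonneg (hf0 _)]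
                gcongr
                · exact hℓ h
                · exact bd2 w
              · rw [norm_mul]
                gcongr
                · exact hTb w
                · exact (ContinuousLinearMap.le_opNorm _ _).trans (by gcongr; exact bd3 w)
          _ = _ := by ring
      · have hw' : R < ‖w‖ := by simpa using hw
        have : s =ᶠ[𝓝 w] fun _ => 0 := (hev w hw').mono fun x hx => hsR x hx
        rw [this.fderiv_eq]
        simp only [fderiv_fun_const, Pi.zero_apply, zero_apply, norm_zero]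
        have : 0 ≤ S.indicator (fun _ => (1 : ℝ)) w := indicator_nonneg (fun _ _ => zero_le_one) _
        have : 0 ≤ (closedBall (0 : ℂ) R).indicator (fun _ => (1 : ℝ)) w :=
          indicator_nonneg (fun _ _ => zero_le_one) _
        positivity
    have h3 : d ^ 2 ≤ d := by nlinarith
    have h4 : (4 * R * d ^ 2) / d = 4 * R * d := by field_simp
    rw [h4] at b2
    rw [e1]
    calc ‖fderiv ℝ W z h - fderiv ℝ (Ct s) z h‖
        ≤ ‖fderiv ℝ W z h‖ + ‖fderiv ℝ (Ct s) z h‖ := norm_sub_le _ _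
      _ ≤ 2 * (f (ℓ z) * g z) * ‖h‖ + (d ^ 2 * (K * (4 + 4 * (2 + Real.pi * R ^ 2))) +
          d * (K * (4 + 8 * R))) * ‖h‖ := by linarith
      _ ≤ 2 * (f (ℓ z) * g z) * ‖h‖ + (d * (K * (4 + 4 * (2 + Real.pi * R ^ 2))) +
          d * (K * (4 + 8 * R))) * ‖h‖ := by gcongr
      _ = 2 * (f (ℓ z) * g z) * ‖h‖ + (C * d) * ‖h‖ := by rw [hC]; ring
      _ ≤ 2 * (f (ℓ z) * g z) * ‖h‖ + ε * ‖h‖ := by gcongr
      _ = _ := by ring

end Q71.TD
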